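import Pool.Agent.BEP.Stmts

/-!
# BEP, row CPK: completeness of the invariant eigenfunctions
-/

set_option autoImplicit false

namespace Pool.Agent.BEP.H75

open Set Filter Topology MeasureTheory Module.End
open scoped InnerProductSpace ENNReal
open Pool.Agent Pool.Agent.BE01 Pool.Agent.BEG Pool.Agent.BEP

theorem cpk (h1 : Pool.Agent.BEN.WxcStmt) (h2 : Pool.Agent.BEG.KsyStmt) : CpkStmt := by
  intro d Ω G w hd hΩ hG hw horth
  obtain ⟨K, hK, hKmem⟩ := h2 d Ω (li G) (by omega) hΩ hG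
  obtain ⟨C0, hC0, h3⟩ := h1 d Ω hd hΩ
  obtain ⟨X, _, _, W, Z, hX, hW, hS⟩ := h3 Ω hΩ (Set.Subset.refl _)
  have hsym : ∀ h k : Lp ℝ 2 (mu Ω), ⟪W.S h, k⟫_ℝ = ⟪h, W.S k⟫_ℝ := by
    intro h k
    rw [← W.prp.RR h, ← W.prp.RR k, W.prp.R_symm, W.prp.R_symm]
  have hinj : ∀ h, W.S h = 0 → h = 0 := by
    intro h hh
    rw [← W.prp.RR h] at hh
    have e1 : W.R (W.R h) = W.R 0 := by rw [hh, map_zero]
    have e2 := W.prp.R_inj e1
    have e3 : W.R h = W.R 0 := by rw [e2, map_zero]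
    exact W.prp.R_inj e3
  have hSK : ∀ h ∈ K, W.S h ∈ K :=
    fun h hh => hK.slv h hh (W.S h) (Z h) (hW.dom h) (hW.weak h)
  have hcomp : CompleteSpace K := hK.closed.completeSpace_coe
  let SK : K →L[ℝ] K := (W.S.comp K.subtypeL).codRestrict K fun h => hSK h h.2
  have hSKv : ∀ h : K, ((SK h : K) : Lp ℝ 2 (mu Ω)) = W.S h := fun h => rfl
  have hcK : IsCompactOperator SK :=
    (hW.comp.comp_clm K.subtypeL).codRestrict (fun h => hSK h h.2) hK.closed
  have hsymK : SK.IsSymmetric := fun h k => hsym h k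
  have hwK : w ∈ K := (hKmem w).2 hw
  have hbot := ContinuousLinearMap.orthogonalComplement_iSup_eigenspaces_eq_bot hcK hsymK
  have hmem : (⟨w, hwK⟩ : K) ∈ (⨆ μ, eigenspace (SK : Module.End ℝ K) μ)ᗮ := by
    rw [← Submodule.iInf_orthogonal, Submodule.mem_iInf]
    intro μ
    rw [Submodule.mem_orthogonal']
    intro x hx
    have hx' : SK x = μ • x := Module.End.mem_eigenspace_iff.1 hx
    have hx2 : W.S (x : Lp ℝ 2 (mu Ω)) = μ • (x : Lp ℝ 2 (mu Ω)) := by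
      have h4 := congrArg (fun v : K => (v : Lp ℝ 2 (mu Ω))) hx'
      simpa [hSKv] using h4
    by_cases hμ : μ = 0
    · have h4 : (x : Lp ℝ 2 (mu Ω)) = 0 := hinj _ (by rw [hx2, hμ, zero_smul])
      show ⟪w, (x : Lp ℝ 2 (mu Ω))⟫_ℝ = 0
      rw [h4, inner_zero_right]
    · refine horth μ⁻¹ x ((hKmem _).1 x.2) ((hW.eig _ _).2 ?_)
      rw [hx2, smul_smul, inv_mul_cancel₀ hμ, one_smul]
  rw [hbot] at hmem
  have h5 := (Submodule.mem_bot ℝ).1 hmem
  exact congrArg (fun v : K => (v : Lp ℝ 2 (mu Ω))) h5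

end Pool.Agent.BEP.H75
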